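import Mathlib
import Pool.Agent.H934.Defs
import Pool.Agent.H934.FinalB

set_option autoImplicit false

open CategoryTheory CategoryTheory.Limits CategoryTheory.Pretriangulated

namespace Pool.Agent.Results.MP_0d7a98_ag.AllSerreInvariant

universe v u

open Pool.Agent.H934

/-- **All stability conditions are Serre-invariant and lie in one orbit.** Let `T` be a complex
linear triangulated category of finite type with a Serre functor `S` such that `S³(E) ≅ E[5]` for all
objects `E`, whose numerical Grothendieck group has rank two and negative definite Euler form. Assume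
that there is an object `I` with `χ(I, I) = -1` and `dim Hom(I, I[1]) = 2`, and that there is a
Serre-invariant stability condition `σ₀` on `T`. (The Kuznetsov component of a smooth cubic threefold
is such a category, with `I` the ideal sheaf of a line and `σ₀` any of the stability conditions
`σ(s, q, μ)`.) Then every stability condition `σ` on `T` is Serre-invariant, and lies in the
orbit of `σ₀` under the universal cover of the group of real matrices of size two with positive
determinant. -/
theorem result {T : Type u} [Category.{v} T] [Preadditive T] [HasZeroObject T] [HasShift T ℤ]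
    [∀ n : ℤ, (shiftFunctor T n).Additive] [Pretriangulated T] [IsTriangulated T] [Linear ℂ T]
    [∀ n : ℤ, (shiftFunctor T n).Linear ℂ] (𝒮 : SerreFunctor T) (hT : FracCY T 𝒮 5)
    (I : T) (hI : eul I I = -1) (hI' : Module.finrank ℂ (I ⟶ I⟦(1 : ℤ)⟧) = 2)
    (σ₀ : StabCond T) (hσ₀ : SerreInvariant 𝒮 σ₀) (σ : StabCond T) :
    SerreInvariant 𝒮 σ ∧ SameOrbit σ₀ σ :=
  have h := all_sameOrbit hT hI hI' σ₀ hσ₀ σ
  ⟨serreInvariant_of_sameOrbit hσ₀ h, h⟩

end Pool.Agent.Results.MP_0d7a98_ag.AllSerreInvariant
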